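import Pool.Agent.Helper23.MCG.Final
import Pool.Agent.Helper23.MCG.SepUp
import Pool.Agent.Helper23.MCG.Sanity

/-!
# Smith's question: restricted positive factorizations of the boundary twist have bounded length

`S` is the surface of genus `g` with one boundary component; `F g` is its fundamental group (based on
the boundary), `M g` its mapping class group, `boundaryTwist g` the twist `T_δ` (library module
`HigmanBound`). Systems of curves are drawn on cell decompositions (`SMap`, `SMap.Curve`).
-/

set_option autoImplicit false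

namespace Pool.Agent.Results.MP_294da1_gt.SmithBound

open Pool.Agent.Helper23.MCG Pool.Agent.Results.MP_294da1_gt.HigmanBound Pool.Agent.N513.PF

/-- **Restricted factorizations.** All elements of the list `w` are positive Dehn twists about
essential simple closed curves in `S`, any two of which are isotopic or meet at most once. In detail:
there are a cell decomposition `Γ` of the closed surface of genus `g`, with a base vertex (on the
boundary of `S`), and a marking `ℓ` of the fundamental group of `S`; simple closed curves `c j` on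
the edges of `Γ` that avoid the base vertex, do not bound discs, are pairwise not isotopic and meet
pairwise in at most one vertex, where they cross; the drawing has no superfluous vertices and edges;
`τ j ∈ M(S)` is the positive Dehn twist about `c j` (in `M(S)` it is conjugate to a standard twist);
every element of `w` is one of the `τ j`. -/
def Restricted (g : ℕ) (w : List (MulAut (F g))) : Prop :=
  ∃ (m : ℕ) (Γ : SMap (Fin m)) (ℓ : Fin m → F g) (K : ℕ) (c : Fin K → Γ.Curve)
    (τ : Fin K → MulAut (F g)),
    Γ.Connected ∧ Γ.HasGenus g ∧ Γ.IsMarking ℓ ∧ Taut c ∧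
    (∀ j, (c j).loop ℓ 0 ≠ 1) ∧
    (∀ i j, i ≠ j → (c i).MeetOnce (c j) ∧ ¬ IsConj ((c i).loop ℓ 0) ((c j).loop ℓ 0) ∧
      ¬ IsConj ((c i).loop ℓ 0) ((c j).loop ℓ 0)⁻¹) ∧
    (∀ j, (IsTwist (τ j) ∨ IsSepTwist (τ j)) ∧ IsTwistOf ℓ (c j) (τ j)) ∧
    ∀ t ∈ w, ∃ j, t = τ j

/-- standard twists are positive -/
lemma twist_posEl {g : ℕ} (τ : MulAut (F g)) (h : IsTwist τ ∨ IsSepTwist τ) :
    PosEl (lt (4 * g + 1) (pos0 g)) τ ∧ τ ≠ 1 := by
  have hconj : ∀ φ ∈ M g, ∀ σ : MulAut (F g), σ ∈ M g → Up (lt (4 * g + 1) (pos0 g)) σ → σ ≠ 1 →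
      PosEl (lt (4 * g + 1) (pos0 g)) (φ * σ * φ⁻¹) ∧ φ * σ * φ⁻¹ ≠ 1 := by
    intro φ hφ σ hσ hup hne
    refine ⟨⟨pres ((M g).mul_mem ((M g).mul_mem hφ hσ) ((M g).inv_mem hφ)),
      up_conj (pres hφ) hup⟩, fun h4 => hne ?_⟩
    have h5 : σ = φ⁻¹ * (φ * σ * φ⁻¹) * φ := by group
    rw [h5, h4]
    group
  rcases h with ⟨φ, hφ, i, rfl⟩ | ⟨φ, hφ, h, h1, h2, rfl⟩
  · refine hconj φ hφ _ (twist_mem i) (twist_pos i).2 ?_
    intro h3
    have h4 : twist i (FreeGroup.of (i, true)) = FreeGroup.of (i, true) * FreeGroup.of (i, false) := by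
      show tHom i (FreeGroup.of (i, false)) (FreeGroup.of (i, true)) = _
      unfold tHom
      rw [FreeGroup.lift_apply_of, if_pos rfl]
    rw [h3, MulAut.one_apply] at h4
    have h5 : FreeGroup.of (i, false) = (1 : F g) := (mul_eq_left.1 h4.symm)
    exact FreeGroup.of_ne_one _ h5
  · exact hconj φ hφ _ (sepTwist_mem g h) (sep_up g h h1 h2) (sep_ne_one g h h1 h2)

/-- **Smith's question**: for every genus `g` (and every power `k` of the boundary twist) the lengths
of the restricted positive factorizations are bounded; in particular `N(g)` is finite. (The second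
clause shows that the definition is not vacuous: the factorization `(T_x T_y) ^ 6 = T_δ` in genus
one is restricted.) -/
theorem result :
    (∀ (g : ℕ) (k : ℤ), ∃ N : ℕ, ∀ w : List (MulAut (F g)), Restricted g w →
      w.prod = boundaryTwist g ^ k → w.length ≤ N) ∧
    ∃ w : List (MulAut (F 1)), Restricted 1 w ∧ w.prod = boundaryTwist 1 ^ (1 : ℤ) ∧
      w.length = 12 :=
  ⟨fun g k => final_bound g k (fun τ => IsTwist τ ∨ IsSepTwist τ) twist_posEl,
    Torus.restricted (fun τ => IsTwist τ ∨ IsSepTwist τ) (Or.inl Torus.isTwist_x)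
      (Or.inl Torus.isTwist_y)⟩

end Pool.Agent.Results.MP_294da1_gt.SmithBound
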